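import Pool.Agent.Helper49.RZ.St

/-!
# Project RZ, module L4: shifts, cones and countable sums of DG modules
-/

set_option autoImplicit false

namespace Pool.Agent.Helper7.RZL

open Pool.Agent.Helper17.RZ Pool.Agent.Helper49.RZ

universe u v w

noncomputable section

variable {k : Type u} [Field k] {V : DGCat.{u, v, w} k}

theorem gcast_gcast (A : GC.{u, w} k) {i j l : ℤ} (h : i = j) (h' : j = l) (x : A.X i) :
    gcast A h' (gcast A h x) = gcast A (h.trans h') x := by
  subst h h'; rfl

/-! ### shifts -/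

/-- the shifted module -/
def shiftMod (M : DGMod V) (n : ℤ) : DGMod V where
  M X := gshift (M.M X) n n.negOnePow
  act {X Y a m l} h := M.act (show a + n + m = l + n by omega)
  act_one {X a} h x := M.act_one (show a + n + 0 = a + n by omega) x
  act_act {X Y Z a b c ab bc l} h₁ h₂ h₃ h₄ x f g :=
    M.act_act (show a + n + b = ab + n by omega) (show ab + n + c = l + n by omega) h₃
      (show a + n + bc = l + n by omega) x f g
  d_act {X Y a m l a' m' l'} h hl hn hm h₁ h₂ x f := by
    change ((n.negOnePow : ℤˣ) : ℤ) • (M.M X).d (show l + n + 1 = l' + n by omega)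
      (M.act (show a + n + m = l + n by omega) x f) =
      M.act (show a' + n + m = l' + n by omega)
        (((n.negOnePow : ℤˣ) : ℤ) • (M.M Y).d (show a + n + 1 = a' + n by omega) x) f +
      a.negOnePow • M.act (show a + n + m' = l' + n by omega) x (V.d hm f)
    rw [M.d_act (show a + n + m = l + n by omega) (show l + n + 1 = l' + n by omega)
      (show a + n + 1 = a' + n by omega) hm (show a' + n + m = l' + n by omega)
      (show a + n + m' = l' + n by omega) x f, map_zsmul, smul_add, ← Units.smul_def,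
      ← Units.smul_def, smul_smul, ← Int.negOnePow_add]
    have e1 : ∀ (e : ℤ) (g : V.Hom X Y m →ₗ[k] (M.M X).X (l' + n)), (e • g) f = e • g f :=
      fun e g => rfl
    have e2 : (n + (a + n)).negOnePow = a.negOnePow := by
      rw [show n + (a + n) = a + (n + n) by ring, Int.negOnePow_add a,
        Int.negOnePow_even (n + n) ⟨n, rfl⟩, mul_one]
    rw [e2]
    exact congrArg₂ (· + ·) (e1 _ _).symm rfl

def shF (M : DGMod V) (n : ℤ) : ModHom M (shiftMod M n) (-n) :=
  mkHom (fun X i j h => gcast (M.M X) (show i = j + n by omega)) (by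
    intro X Y i m l i' l' h₁ h₂ h₃ h₄ x f
    obtain rfl : i = i' + n := by omega
    obtain rfl : l = l' + n := by omega
    rfl)

def shG (M : DGMod V) (n : ℤ) : ModHom (shiftMod M n) M n :=
  mkHom (fun X i j h => gcast (M.M X) (show i + n = j by omega)) (by
    intro X Y i m l i' l' h₁ h₂ h₃ h₄ x f
    obtain rfl : i' = i + n := by omega
    obtain rfl : l' = l + n := by omega
    rfl)

theorem modShift : ModShift.{u, v, w} := by
  intro k _ V M n
  change DGMod V at M
  refine ⟨shiftMod M n, shF M n, shG M n, ?_, ?_, ?_, ?_⟩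
  · refine ap_ext fun X i j hij x => ?_
    obtain ⟨j₁, h₁⟩ : ∃ j₁, j₁ + 1 = j := ⟨j - 1, by omega⟩
    obtain ⟨i₁, h₄⟩ : ∃ i₁, i + 1 = i₁ := ⟨_, rfl⟩
    refine (d_ap (rfl : -n + 1 = -n + 1) (shF M n) hij h₁ (by omega) (by omega : -n + i₁ = j) h₄ x).trans ?_
    obtain rfl : i = j₁ + n := by omega
    obtain rfl : i₁ = j + n := by omega
    change (((n.negOnePow : ℤˣ) : ℤ) • (M.M X).d _ x - (-n).negOnePow • (M.M X).d _ x :
      (M.M X).X (j + n)) = 0
    rw [Int.negOnePow_neg, Units.smul_def]
    exact sub_self _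
  · refine ap_ext fun X i j hij x => ?_
    obtain ⟨j₁, h₁⟩ : ∃ j₁, j₁ + 1 = j := ⟨j - 1, by omega⟩
    obtain ⟨i₁, h₄⟩ : ∃ i₁, i + 1 = i₁ := ⟨_, rfl⟩
    refine (d_ap (rfl : n + 1 = n + 1) (shG M n) hij h₁ (by omega) (by omega : n + i₁ = j) h₄ x).trans ?_
    obtain rfl : j₁ = i + n := by omega
    obtain rfl : j = i₁ + n := by omega
    change ((M.M X).d _ x - n.negOnePow • (((n.negOnePow : ℤˣ) : ℤ) • (M.M X).d _ x) :
      (M.M X).X (i₁ + n)) = 0
    rw [← Units.smul_def, smul_smul, Int.units_mul_self, one_smul, sub_self]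
  · refine ap_ext fun X i j hij x => ?_
    obtain rfl : i = j := by omega
    refine (comp_ap (add_neg_cancel n) (shG M n) (shF M n) hij (show n + (-n + i) = i by omega) rfl x).trans ?_
    exact gcast_gcast (M.M X) _ _ x
  · refine ap_ext fun X i j hij x => ?_
    obtain rfl : i = j := by omega
    refine (comp_ap (neg_add_cancel n) (shF M n) (shG M n) hij (show -n + (n + i) = i by omega) rfl x).trans ?_
    exact gcast_gcast (M.M X) _ _ x

/-! ### cones -/

/-- the complexes of the cone -/
def coneGC {M N : DGMod V} (f : ModHom M N 0) (hf : dHom (zero_add 1) f = 0) (X : V.Obj) :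
    GC.{u, max v w} k where
  X i := (N.M X).X i × (M.M X).X (i + 1)
  d {i j} h :=
    LinearMap.prod
      ((N.M X).d h ∘ₗ LinearMap.fst k ((N.M X).X i) ((M.M X).X (i + 1)) +
        ap f (show 0 + (i + 1) = j by omega) ∘ₗ LinearMap.snd k ((N.M X).X i) ((M.M X).X (i + 1)))
      (-((M.M X).d (show i + 1 + 1 = j + 1 by omega) ∘ₗ
        LinearMap.snd k ((N.M X).X i) ((M.M X).X (i + 1))))
  d_d {n m l} h₁ h₂ x := by
    refine Prod.ext ?_ ?_
    · change (N.M X).d h₂ ((N.M X).d h₁ x.1 + ap f _ x.2) + ap f _ (-(M.M X).d _ x.2) = 0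
      have h1 := (evMap f hf X).comm (show n + 1 + 1 = m + 1 by omega) x.2
      have h2 : ap f (zero_add (m + 1)) ((M.M X).d (show n + 1 + 1 = m + 1 by omega) x.2) =
        (N.M X).d (show n + 1 + 1 = m + 1 by omega) (ap f (zero_add (n + 1)) x.2) := h1
      obtain rfl : m = n + 1 := h₁.symm
      obtain rfl : l = n + 1 + 1 := h₂.symm
      rw [map_add, (N.M X).d_d, zero_add, map_neg, h2]
      exact add_neg_cancel _
    · change -((M.M X).d _ (-((M.M X).d _ x.2))) = 0
      rw [map_neg, (M.M X).d_d, neg_zero, neg_zero]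

theorem coneGC_d {M N : DGMod V} (f : ModHom M N 0) (hf : dHom (zero_add 1) f = 0) (X : V.Obj)
    {i j : ℤ} (h : i + 1 = j) (y : (N.M X).X i) (x : (M.M X).X (i + 1)) :
    (coneGC f hf X).d h ((y, x) : (N.M X).X i × (M.M X).X (i + 1)) =
      ((((N.M X).d h y + ap f (show 0 + (i + 1) = j by omega) x,
        -((M.M X).d (show i + 1 + 1 = j + 1 by omega) x))) : (N.M X).X j × (M.M X).X (j + 1)) := rfl

/-- the cone -/
def coneMod {M N : DGMod V} (f : ModHom M N 0) (hf : dHom (zero_add 1) f = 0) : DGMod V where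
  M X := coneGC f hf X
  act {X Y n m l} h := LinearMap.mk₂ k
    (fun (z : (N.M Y).X n × (M.M Y).X (n + 1)) g =>
      ((N.act h z.1 g, M.act (show n + 1 + m = l + 1 by omega) z.2 g) :
        (N.M X).X l × (M.M X).X (l + 1)))
    (fun z z' g => Prod.ext
      (by change N.act h (z.1 + z'.1) g = N.act h z.1 g + N.act h z'.1 g
          rw [map_add, LinearMap.add_apply])
      (by change M.act _ (z.2 + z'.2) g = M.act _ z.2 g + M.act _ z'.2 g
          rw [map_add, LinearMap.add_apply]))
    (fun c z g => Prod.ext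
      (by change N.act h (c • z.1) g = c • N.act h z.1 g
          rw [map_smul, LinearMap.smul_apply])
      (by change M.act _ (c • z.2) g = c • M.act _ z.2 g
          rw [map_smul, LinearMap.smul_apply]))
    (fun z g g' => Prod.ext ((N.act h z.1).map_add g g')
      ((M.act (show n + 1 + m = l + 1 by omega) z.2).map_add g g'))
    (fun c z g => Prod.ext ((N.act h z.1).map_smul c g)
      ((M.act (show n + 1 + m = l + 1 by omega) z.2).map_smul c g))
  act_one {X n} h z := Prod.ext (N.act_one h z.1) (M.act_one (show n + 1 + 0 = n + 1 by omega) z.2)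
  act_act {X Y Z a b c ab bc l} h₁ h₂ h₃ h₄ z g g' := Prod.ext
    (N.act_act h₁ h₂ h₃ h₄ z.1 g g')
    (M.act_act (show a + 1 + b = ab + 1 by omega) (show ab + 1 + c = l + 1 by omega) h₃
      (show a + 1 + bc = l + 1 by omega) z.2 g g')
  d_act {X Y n m l n' m' l'} h hl hn hm h₁ h₂ z g := by
    refine Prod.ext ?_ ?_
    · change (N.M X).d hl (N.act h z.1 g) + ap f (show 0 + (l + 1) = l' by omega)
          (M.act (show n + 1 + m = l + 1 by omega) z.2 g) =
        N.act h₁ ((N.M Y).d hn z.1 + ap f (show 0 + (n + 1) = n' by omega) z.2) g +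
          n.negOnePow • N.act h₂ z.1 (V.d hm g)
      rw [N.d_act h hl hn hm h₁ h₂, map_add, LinearMap.add_apply,
        ap_nat f (show n + 1 + m = l + 1 by omega) (show 0 + (l + 1) = l' by omega)
          (show 0 + (n + 1) = n' by omega) h₁]
      abel
    · change -((M.M X).d (show l + 1 + 1 = l' + 1 by omega)
          (M.act (show n + 1 + m = l + 1 by omega) z.2 g)) =
        M.act (show n' + 1 + m = l' + 1 by omega)
          (-((M.M Y).d (show n + 1 + 1 = n' + 1 by omega) z.2)) g +
          n.negOnePow • M.act (show n + 1 + m' = l' + 1 by omega) z.2 (V.d hm g)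
      rw [M.d_act (show n + 1 + m = l + 1 by omega) (show l + 1 + 1 = l' + 1 by omega)
        (show n + 1 + 1 = n' + 1 by omega) hm (show n' + 1 + m = l' + 1 by omega)
        (show n + 1 + m' = l' + 1 by omega), Int.negOnePow_succ, Units.neg_smul, map_neg,
        LinearMap.neg_apply, neg_add, neg_neg]

section cone

variable {M N : DGMod V} (f : ModHom M N 0) (hf : dHom (zero_add 1) f = 0)

def cI : ModHom N (coneMod f hf) 0 :=
  mkHom (fun X i j h => LinearMap.inl k ((N.M X).X j) ((M.M X).X (j + 1)) ∘ₗ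
      gcast (N.M X) (show i = j by omega)) (by
    intro X Y i m l i' l' h₁ h₂ h₃ h₄ x g
    obtain rfl : i = i' := by omega
    obtain rfl : l = l' := by omega
    exact Prod.ext rfl (by
      change (0 : (M.M X).X (l + 1)) = M.act _ (0 : (M.M Y).X (i + 1)) g
      rw [map_zero, LinearMap.zero_apply]))

def cP : ModHom (coneMod f hf) N 0 :=
  mkHom (fun X i j h => gcast (N.M X) (show i = j by omega) ∘ₗ
      LinearMap.fst k ((N.M X).X i) ((M.M X).X (i + 1))) (by
    intro X Y i m l i' l' h₁ h₂ h₃ h₄ x g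
    obtain rfl : i = i' := by omega
    obtain rfl : l = l' := by omega
    rfl)

def cJ : ModHom M (coneMod f hf) (-1) :=
  mkHom (fun X i j h => LinearMap.inr k ((N.M X).X j) ((M.M X).X (j + 1)) ∘ₗ
      gcast (M.M X) (show i = j + 1 by omega)) (by
    intro X Y i m l i' l' h₁ h₂ h₃ h₄ x g
    obtain rfl : i = i' + 1 := by omega
    obtain rfl : l = l' + 1 := by omega
    exact Prod.ext (by
      change (0 : (N.M X).X l') = N.act _ (0 : (N.M Y).X i') g
      rw [map_zero, LinearMap.zero_apply]) rfl)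

def cQ : ModHom (coneMod f hf) M 1 :=
  mkHom (fun X i j h => gcast (M.M X) (show i + 1 = j by omega) ∘ₗ
      LinearMap.snd k ((N.M X).X i) ((M.M X).X (i + 1))) (by
    intro X Y i m l i' l' h₁ h₂ h₃ h₄ x g
    obtain rfl : i' = i + 1 := by omega
    obtain rfl : l' = l + 1 := by omega
    rfl)

end cone

theorem modCone : ModCone.{u, v, w} := by
  intro k _ V M N f hf
  change DGMod V at M N
  change ModHom M N 0 at f
  change dHom (zero_add 1) f = 0 at hf
  refine ⟨coneMod f hf, cI f hf, cP f hf, cJ f hf, cQ f hf, ?_, ?_, ?_, ?_, ?_, ?_, ?_, ?_, ?_⟩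
  · -- p i = 1
    refine ap_ext fun X i j hij x => ?_
    obtain rfl : i = j := by omega
    exact comp_ap (zero_add 0) (cP f hf) (cI f hf) hij hij hij x
  · -- q j = 1
    refine ap_ext fun X i j hij x => ?_
    obtain rfl : i = j := by omega
    obtain ⟨l, hl⟩ : ∃ l, -1 + i = l := ⟨_, rfl⟩
    refine (comp_ap (add_neg_cancel 1) (cQ f hf) (cJ f hf) hij (show 1 + l = i by omega) hl x).trans ?_
    obtain rfl : i = l + 1 := by omega
    rfl
  · -- i p + j q = 1
    refine ap_ext fun X i j hij z => ?_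
    obtain rfl : i = j := by omega
    have e1 := comp_ap (zero_add 0) (cI f hf) (cP f hf) hij hij hij z
    have e2 := comp_ap (neg_add_cancel 1) (cJ f hf) (cQ f hf) hij (show -1 + (i + 1) = i by omega)
      (show 1 + i = i + 1 by omega) z
    change ap (compHom (zero_add 0) (cI f hf) (cP f hf)) hij z +
      ap (compHom (neg_add_cancel 1) (cJ f hf) (cQ f hf)) hij z = z
    rw [e1, e2]
    exact Prod.ext (add_zero _) (zero_add _)
  · -- p j = 0
    refine ap_ext fun X i j hij x => ?_
    exact comp_ap (zero_add (-1)) (cP f hf) (cJ f hf) hij (show 0 + j = j by omega) hij x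
  · -- q i = 0
    refine ap_ext fun X i j hij x => ?_
    obtain rfl : j = i + 1 := by omega
    exact comp_ap (add_zero 1) (cQ f hf) (cI f hf) hij hij (zero_add i) x
  · -- d i = 0
    refine ap_ext fun X i j hij x => ?_
    obtain rfl : j = i + 1 := by omega
    refine (d_ap (zero_add 1) (cI f hf) hij rfl (zero_add i) (zero_add (i + 1)) rfl x).trans ?_
    refine Prod.ext ?_ ?_
    · change (N.M X).d _ x + ap f _ (0 : (M.M X).X (i + 1)) -
        (0 : ℤ).negOnePow • (N.M X).d _ x = 0
      rw [map_zero, add_zero, Int.negOnePow_zero, one_smul]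
      exact sub_self _
    · change -((M.M X).d _ (0 : (M.M X).X (i + 1))) - (0 : ℤ).negOnePow • (0 : (M.M X).X (i + 1 + 1)) = 0
      rw [map_zero, smul_zero, neg_zero]
      exact sub_zero _
  · -- d q = 0
    refine ap_ext fun X i j hij z => ?_
    obtain rfl : j = i + 1 + 1 := by omega
    refine (d_ap (rfl : (1 : ℤ) + 1 = 1 + 1) (cQ f hf) hij (rfl : i + 1 + 1 = i + 1 + 1)
      (show 1 + i = i + 1 by omega) (show 1 + (i + 1) = i + 1 + 1 by omega) rfl z).trans ?_
    change (M.M X).d _ z.2 - (1 : ℤ).negOnePow • (-((M.M X).d _ z.2)) = 0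
    rw [Int.negOnePow_one, Units.neg_smul, one_smul, neg_neg]
    exact sub_self _
  · -- d j = i f
    refine ap_ext fun X i j hij x => ?_
    obtain rfl : i = j := by omega
    obtain ⟨l, hl⟩ : ∃ l, l + 1 = i := ⟨i - 1, by omega⟩
    refine (d_ap (neg_add_cancel 1) (cJ f hf) hij hl (show -1 + i = l by omega)
      (show -1 + (i + 1) = i by omega) rfl x).trans ?_
    refine Eq.trans ?_ (comp_ap (zero_add 0) (cI f hf) f hij hij hij x).symm
    obtain rfl : i = l + 1 := hl.symm
    refine Prod.ext ?_ ?_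
    · change (N.M X).d _ (0 : (N.M X).X l) + ap f _ x - (-1 : ℤ).negOnePow • (0 : (N.M X).X (l + 1)) = _
      rw [map_zero, zero_add, smul_zero]
      exact sub_zero _
    · change -((M.M X).d _ x) - (-1 : ℤ).negOnePow • ((M.M X).d _ x) = (0 : (M.M X).X (l + 1 + 1))
      rw [Int.negOnePow_neg, Int.negOnePow_one, Units.neg_smul, one_smul, sub_neg_eq_add]
      exact neg_add_cancel _
  · -- d p = - f q
    refine ap_ext fun X i j hij z => ?_
    obtain rfl : j = i + 1 := by omega
    refine (d_ap (zero_add 1) (cP f hf) hij rfl (zero_add i) (zero_add (i + 1)) rfl z).trans ?_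
    have e2 := comp_ap (zero_add 1) f (cQ f hf) hij (zero_add (i + 1)) hij z
    change _ = -(ap (compHom (zero_add 1) f (cQ f hf)) hij z)
    rw [e2]
    change (N.M X).d _ z.1 - (0 : ℤ).negOnePow • ((N.M X).d _ z.1 + ap f _ z.2) = -(ap f _ z.2)
    rw [Int.negOnePow_zero, one_smul]
    exact sub_add_cancel_left _ _

/-! ### countable sums -/

theorem inc_ap (M : DGMod V) (i : ℕ) {X : V.Obj} {a : ℤ} (h : 0 + a = a) (x : (M.M X).X a) :
    ap (inc M i) h x = (Finsupp.single i x : ℕ →₀ (M.M X).X a) := rfl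

theorem sumUniv : SumUniv.{u, v, w} := by
  intro k _ V M N
  refine ⟨fun i => ?_, fun n φ => ?_, fun n ψ ψ' H => ?_⟩
  · refine ap_ext fun X a b hab x => ?_
    obtain rfl : b = a + 1 := by omega
    refine (d_ap (zero_add 1) (inc M i) hab rfl (zero_add a) (zero_add (a + 1)) rfl x).trans ?_
    have h2 : ∀ y : ((sumN M).M X).X (a + 1), (0 : ℤ).negOnePow • y = y := fun y => by
      rw [Int.negOnePow_zero, one_smul]
    have h1 : ((sumN M).M X).d (rfl : a + 1 = a + 1) (Finsupp.single i x : ℕ →₀ (M.M X).X a) =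
        (Finsupp.single i ((M.M X).d (rfl : a + 1 = a + 1) x) : ℕ →₀ (M.M X).X (a + 1)) :=
      Finsupp.mapRange_single (f := fun y => (M.M X).d (rfl : a + 1 = a + 1) y) (hf := by simp)
    exact (congrArg₂ (· - ·) h1 (h2 _)).trans (sub_self _)
  · let ψ : ModHom (sumN M) N n := mkHom
      (fun X a b h => Finsupp.lsum k (fun i => ap (φ i) h)) (by
        intro X Y a m l a' l' h₁ h₂ h₃ h₄ x g
        change (ℕ →₀ (M.M Y).X a) at x
        have key : (Finsupp.lsum k (fun i => ap (φ i) h₂)) ∘ₗ
            (Finsupp.mapRange.linearMap ((M.act h₁).flip g) :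
              (ℕ →₀ (M.M Y).X a) →ₗ[k] (ℕ →₀ (M.M X).X l)) =
            ((N.act h₄).flip g) ∘ₗ (Finsupp.lsum k (fun i => ap (φ i) h₃) :
              (ℕ →₀ (M.M Y).X a) →ₗ[k] (N.M Y).X a') := by
          refine Finsupp.lhom_ext fun i y => ?_
          simp only [LinearMap.comp_apply, Finsupp.mapRange.linearMap_apply,
            Finsupp.mapRange_single, Finsupp.lsum_single, LinearMap.flip_apply]
          exact ap_nat (φ i) h₁ h₂ h₃ h₄ y g
        exact LinearMap.congr_fun key x)
    refine ⟨ψ, fun i => ?_⟩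
    refine ap_ext fun X a b hab x => ?_
    refine (comp_ap (add_zero n) ψ (inc M i) hab hab (zero_add a) x).trans ?_
    rw [inc_ap]
    change (Finsupp.lsum k (fun i => ap (φ i) hab)) (Finsupp.single i x) = _
    rw [Finsupp.lsum_single]
  · refine ap_ext fun X a b hab x => ?_
    change (ℕ →₀ (M.M X).X a) at x
    have key : (ap ψ hab : (ℕ →₀ (M.M X).X a) →ₗ[k] (N.M X).X b) = ap ψ' hab := by
      refine Finsupp.lhom_ext fun i y => ?_
      have h1 := comp_ap (add_zero n) ψ (inc M i) hab hab (zero_add a) y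
      have h2 := comp_ap (add_zero n) ψ' (inc M i) hab hab (zero_add a) y
      rw [H i] at h1
      exact h1.symm.trans h2
    exact LinearMap.congr_fun key x

end

end Pool.Agent.Helper7.RZL
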